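import Pool.Agent.Q166.PD.Asp
import Pool.Agent.Q166.PD.Ae

/-!
# The Assouad spectrum of the critical interface

The random cluster model with `q = 1` at its self-dual point (critical bond percolation) on `δ ℤ²`
in a rectangle `D = (-A, B) × (0, H)` with Dobrushin boundary conditions: the counterclockwise
boundary arc from `a = t + i H` to `b = 0` is wired, the other one is free. The interface is
parametrised by its number of steps: `Rect.curve` is the piecewise linear curve on `[0, 1]` run at
constant speed, and `Rect.time` is the number of steps times `δ ^ (7/4)`; `Rect.law` is the law of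
(curve, time). Weak limits exist along a subsequence of every sequence of meshes.

For every weak limit, almost surely, simultaneously for ALL sets `E` of times and all
`0 < θ < 1`, the Assouad spectrum at `θ` of the image of `E` is `7/4` times the Assouad spectrum at
`θ` of `E`; and for all sets `E` of times of positive (outer) Lebesgue measure, in particular for
all arcs, the Assouad spectrum of the image is constant, equal to `7/4`.

The Assouad spectrum at `θ` of `A` (`aspec θ A`, in `Pool.Agent.Q166.PD.Asp`) is the infimum of the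
`s ≥ 0` such that for all small `R > 0` the part of `A` in any closed ball of radius `R` centred in
`A` can be covered by at most `(R / R ^ (1 / θ)) ^ s` closed balls of radius `R ^ (1 / θ)`
(`cov A r`, in `Pool.Agent.Q166.PD.Img`, is the number of closed balls of radius `r` which are
necessary to cover `A`). Other definitions: `Pool.Agent.H984R4.NP.Model` (`Rect`, `pos`, `clamp`,
`pl`, `X`, `Rect.dm`, `Rect.curve`, `Rect.time`, `Rect.law`), `Pool.Agent.H984R4.NP.Defs` (`Dm`,
`Dm.edges`, `Dm.wir`, `Dm.cfg`, `Dm.walk`, `Dm.len`) and `Pool.Agent.H984R3.Per.Defs` (states, `ae`,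
`mv`, `rt`, `nxt`, `orb`).
-/

set_option autoImplicit false

namespace Pool.Agent.Results.MP_b3e76a_pr.AssouadSpectrum

open H984N MeasureTheory Filter Topology Pool.Agent.Q166.PD

theorem result (R : Rect) :
    (∀ δ : ℕ → ℝ, (∀ i, 0 < δ i) → Tendsto δ atTop (𝓝 0) →
      ∃ φ : ℕ → ℕ, StrictMono φ ∧ ∃ μ : ProbabilityMeasure X,
        Tendsto (fun i => R.law (δ (φ i))) atTop (𝓝 μ)) ∧
    ∀ δ : ℕ → ℝ, (∀ i, 0 < δ i) → Tendsto δ atTop (𝓝 0) → ∀ μ : ProbabilityMeasure X,
      Tendsto (fun i => R.law (δ i)) atTop (𝓝 μ) →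
      ∀ᵐ p ∂(μ : Measure X),
        (∀ (E : Set unitInterval) (θ : ℝ), 0 < θ → θ < 1 →
          aspec θ (p.1 '' E) = 7 / 4 * aspec θ E) ∧
        ∀ E : Set unitInterval, volume E ≠ 0 → ∀ θ : ℝ, 0 < θ → θ < 1 →
          aspec θ (p.1 '' E) = 7 / 4 := by
  refine ⟨(reg_ae R).1, fun δ hδ hlim μ hμ => ?_⟩
  filter_upwards [(reg_ae R).2 δ hδ hlim μ hμ] with p hreg
  refine ⟨fun E θ h0 h1 => aspec_image hreg h0 h1 E, fun E hE θ h0 h1 => ?_⟩
  rw [aspec_image hreg h0 h1, aspec_one h0 h1 hE, mul_one]

end Pool.Agent.Results.MP_b3e76a_pr.AssouadSpectrum
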