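import Pool.Agent.Q166.PD.Coin
import Pool.Agent.Q166.PD.Ae
import Pool.Agent.Results.MP_fe58d8_pr.DoublePoints

/-!
# Uniform dimension theorem for the coincidence sets of the critical interface

The random cluster model with `q = 1` at its self-dual point (critical bond percolation) on `δ ℤ²`
in a rectangle `D = (-A, B) × (0, H)` with Dobrushin boundary conditions: the counterclockwise
boundary arc from `a = t + i H` to `b = 0` is wired, the other one is free. The interface is
parametrised by its number of steps: `Rect.curve` is the piecewise linear curve on `[0, 1]` run at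
constant speed, and `Rect.time` is the number of steps times `δ ^ (7/4)`; `Rect.law` is the law of
(curve, time). Weak limits exist along a subsequence of every sequence of meshes.

For every weak limit, almost surely, simultaneously for all `k` and ALL sets `Z` of `k + 1`-tuples
`(x 0, …, x k)` of times at which the curve `f` is at the same point, `f (x 0) = … = f (x k)`, the
Hausdorff dimension of the set of these points is `7/4` times the dimension of `Z` (as a subset of
`[0, 1] ^ (k + 1)`). (For `k = 0` this is the uniform dimension theorem.) In particular the set of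
pairs of different times at which the curve is at the same point has dimension `3/7`, and so has
every set of such pairs which contains at least one pair for every double point.

Definitions: `Pool.Agent.H984R4.NP.Model` (`Rect`, `pos`, `clamp`, `pl`, `X`, `Rect.dm`,
`Rect.curve`, `Rect.time`, `Rect.law`), `Pool.Agent.H984R4.NP.Defs` (`Dm`, `Dm.edges`, `Dm.wir`,
`Dm.cfg`, `Dm.walk`, `Dm.len`) and `Pool.Agent.H984R3.Per.Defs` (states, `ae`, `mv`, `rt`, `nxt`,
`orb`).
-/

set_option autoImplicit false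

namespace Pool.Agent.Results.MP_b3e76a_pr.CoincidenceSets

open H984N MeasureTheory Filter Topology Pool.Agent.Q166.PD
open scoped ENNReal

theorem solve {x : ℝ≥0∞} (h : 3 / 4 = 7 / 4 * x) : x = 3 / 7 := by
  have e1 : (3 / 4 : ℝ≥0∞) = ENNReal.ofReal (3/4) := by
    rw [ENNReal.ofReal_div_of_pos (by norm_num)]
    norm_num
  have e2 : (3 / 7 : ℝ≥0∞) = ENNReal.ofReal (3/7) := by
    rw [ENNReal.ofReal_div_of_pos (by norm_num)]
    norm_num
  have h2 : ENNReal.ofReal (4/7) * (3 / 4) = ENNReal.ofReal (4/7) * (7 / 4 * x) := by rw [← h]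
  rw [← mul_assoc, e74, e1, ← ENNReal.ofReal_mul (by norm_num),
    ← ENNReal.ofReal_mul (by norm_num)] at h2
  have e3 : (4 / 7 : ℝ) * (7 / 4) = 1 := by norm_num
  have e4 : (4 / 7 : ℝ) * (3 / 4) = 3 / 7 := by norm_num
  rw [e3, e4, ENNReal.ofReal_one, one_mul] at h2
  rw [e2]
  exact h2.symm

theorem result (R : Rect) :
    (∀ δ : ℕ → ℝ, (∀ i, 0 < δ i) → Tendsto δ atTop (𝓝 0) →
      ∃ φ : ℕ → ℕ, StrictMono φ ∧ ∃ μ : ProbabilityMeasure X,
        Tendsto (fun i => R.law (δ (φ i))) atTop (𝓝 μ)) ∧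
    ∀ δ : ℕ → ℝ, (∀ i, 0 < δ i) → Tendsto δ atTop (𝓝 0) → ∀ μ : ProbabilityMeasure X,
      Tendsto (fun i => R.law (δ i)) atTop (𝓝 μ) →
      ∀ᵐ p ∂(μ : Measure X),
        (∀ (k : ℕ) (Z : Set (Fin (k + 1) → unitInterval)),
          (∀ x ∈ Z, ∀ i, p.1 (x i) = p.1 (x 0)) →
            dimH ((fun x : Fin (k + 1) → unitInterval => p.1 (x 0)) '' Z) = 7 / 4 * dimH Z) ∧
        (∀ Z : Set (Fin 2 → unitInterval), (∀ x ∈ Z, x 0 ≠ x 1 ∧ p.1 (x 0) = p.1 (x 1)) →
          (∀ s t : unitInterval, s ≠ t → p.1 s = p.1 t → ∃ x ∈ Z, p.1 (x 0) = p.1 s) →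
          dimH Z = 3 / 7) := by
  refine ⟨(reg_ae R).1, fun δ hδ hlim μ hμ => ?_⟩
  filter_upwards [(reg_ae R).2 δ hδ hlim μ hμ,
    (Pool.Agent.Results.MP_fe58d8_pr.UniformDimension.result R).2 δ hδ hlim μ hμ,
    (Pool.Agent.Results.MP_fe58d8_pr.DoublePoints.result R).2 δ hδ hlim μ hμ] with p hreg hu hd
  refine ⟨fun k Z hZ => coin hreg hu Z hZ, fun Z hZ1 hZ2 => ?_⟩
  have h1 := coin hreg hu (k := 1) Z (fun x hx i => by
    have h2 : i = 0 ∨ i = 1 := by fin_cases i <;> simp
    rcases h2 with rfl | rfl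
    · rfl
    · exact (hZ1 x hx).2.symm)
  have h3 : (fun x : Fin (1 + 1) → unitInterval => p.1 (x 0)) '' Z =
      Pool.Agent.Results.MP_fe58d8_pr.DoublePoints.doublePoints p.1 := by
    ext z
    constructor
    · rintro ⟨x, hx, rfl⟩
      obtain ⟨g1, g2⟩ := hZ1 x hx
      rcases lt_or_gt_of_ne g1 with h | h
      · exact ⟨x 0, x 1, h, rfl, g2.symm⟩
      · exact ⟨x 1, x 0, h, g2.symm, rfl⟩
    · rintro ⟨s, t, hst, rfl, ht⟩
      obtain ⟨x, hx, hxs⟩ := hZ2 s t hst.ne ht.symm
      exact ⟨x, hx, hxs⟩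
  rw [h3, hd.1] at h1
  exact solve h1

end Pool.Agent.Results.MP_b3e76a_pr.CoincidenceSets
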