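import Pool.Agent.Q216.CC.Defs
import Pool.Agent.Q216.CC.MultiTwo

/-!
# One cluster meeting several sets of two opposite sides of a (possibly long) rectangle

Critical bond percolation on `ℤ²` (the FK model with `q = 1` at its self-dual point) in the
rectangle `[0, m] × [0, n]` with `n ≤ K m`; the length `m` may be arbitrarily large compared with
`n`. For sets `S i` of points of the left side and `T j` of points of the right side, the sets of
one side being at macroscopic distance from the corners and from each other, the probability that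
one open cluster meets all of them is comparable to the product of the probability that the
rectangle is crossed and of the `1/3`-capacities of all the sets.
-/

set_option autoImplicit false

namespace Pool.Agent.Results.MP_b3e76a_pr.JointCrossing

open Finset Pool.Agent.Q216.CC
open Pool.Agent.Results.MP_b3e76a_pr.BoundaryTouching

/-- Some vertex `v` is joined by open edges to a point `(0, s)`, `s ∈ S i`, for every `i` and to a
point `(m, t)`, `t ∈ T j`, for every `j`. -/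
def JoinAll {k l : ℕ} (m : ℕ) (S : Fin k → Finset ℤ) (T : Fin l → Finset ℤ) (F : Finset Edge) :
    Prop :=
  ∃ v : Vertex, (∀ i, ∃ s ∈ S i, Conn (↑F : Set Edge) ((0 : ℤ), s) v) ∧
    ∀ j, ∃ t ∈ T j, Conn (↑F : Set Edge) ((m : ℤ), t) v

theorem join_iff {k l m n : ℕ} {S : Fin k → Finset ℤ} {T : Fin l → Finset ℤ} {F : Finset Edge}
    (hF : F ⊆ H974.RE 0 m 0 n) :
    JoinAll m S T F ↔ Pool.Agent.Q216.CC.Multi.Crs m n S T F := by
  have e : ((↑F : Set H974.Edg) ∩ ↑(H974.RE 0 m 0 n)) = ↑F :=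
    Set.inter_eq_left.mpr (by exact_mod_cast hF)
  unfold JoinAll Pool.Agent.Q216.CC.Multi.Crs
  rw [e]
  rfl

theorem crossed_iff {m n : ℕ} (hm : 1 ≤ m) {F : Finset Edge} (hF : F ⊆ H974.RE 0 m 0 n) :
    Crossed m n F ↔ H974.LRc 0 m 0 n F := by
  have e : ((↑F : Set H974.Edg) ∩ ↑(H974.RE 0 m 0 n)) = ↑F :=
    Set.inter_eq_left.mpr (by exact_mod_cast hF)
  constructor
  · rintro ⟨s, t, -, -, h⟩
    have h1 : H974.Reach ((↑F : Set H974.Edg) ∩ ↑(H974.RE 0 m 0 n)) ((0 : ℤ), s) ((m : ℤ), t) := by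
      rw [e]; exact h
    exact H974.LRc_of_reach (by omega) h1 rfl rfl
  · rintro ⟨s, t, hs, ht, h⟩
    exact ⟨s, t, hs, ht, h.mono Set.inter_subset_left⟩

theorem prob_crossed {m n : ℕ} (hm : 1 ≤ m) : prob m n (Crossed m n) = H974.hh (1/2) m n := by
  rw [prob_eq' m n (Crossed m n) (H974.LRc 0 m 0 n) (fun F hF => crossed_iff hm hF)]
  have := H974.pr_LRc (1/2) (a := 0) (b := m) (c := 0) (d := n) (S := H974.RE 0 m 0 n)
    H974.LRE_subset_RE
  rw [sub_zero, sub_zero] at this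
  exact this

/-- **One cluster meets all the sets.** -/
theorem result (K k l : ℕ) : ∃ c₁ c₂ : ℝ, 0 < c₁ ∧ 0 < c₂ ∧ ∀ m n : ℕ, 1 ≤ m → 1 ≤ n →
    n ≤ K * m → ∀ (S : Fin (k + 1) → Finset ℤ) (T : Fin (l + 1) → Finset ℤ),
    (∀ i, ∀ x ∈ S i, (n : ℤ) ≤ K * x ∧ (n : ℤ) ≤ K * (n - x)) →
    (∀ j, ∀ x ∈ T j, (n : ℤ) ≤ K * x ∧ (n : ℤ) ≤ K * (n - x)) →
    (∀ i i', i ≠ i' → ∀ x ∈ S i, ∀ y ∈ S i', (n : ℤ) ≤ K * |x - y|) →
    (∀ j j', j ≠ j' → ∀ x ∈ T j, ∀ y ∈ T j', (n : ℤ) ≤ K * |x - y|) →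
      c₁ * (prob m n (Crossed m n) * (∏ i, capacity n (S i)) * ∏ j, capacity n (T j)) ≤
          prob m n (JoinAll m S T) ∧
        prob m n (JoinAll m S T) ≤
          c₂ * (prob m n (Crossed m n) * (∏ i, capacity n (S i)) * ∏ j, capacity n (T j)) := by
  rcases Nat.eq_zero_or_pos K with hK | hK
  · refine ⟨1, 1, one_pos, one_pos, fun m n hm hn h1 => ?_⟩
    rw [hK] at h1
    omega
  · obtain ⟨c, hc, h⟩ := Pool.Agent.Q216.CC.Multi.crs_low K hK (k + 1) (l + 1)
    obtain ⟨C, hC, h'⟩ := Pool.Agent.Q216.CC.Multi.crs_up K hK k l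
    refine ⟨c, C, hc, hC, fun m n hm hn h1 S T hS hT hSs hTs => ?_⟩
    have g1 := h m n (by exact_mod_cast hm) (by exact_mod_cast hn) (by exact_mod_cast h1) S T hS hT
    have g2 := h' m n (by exact_mod_cast hm) (by exact_mod_cast hn) (by exact_mod_cast h1) S T
      hS hT hSs hTs
    rw [prob_eq' m n (JoinAll m S T) (Pool.Agent.Q216.CC.Multi.Crs m n S T)
      (fun F hF => join_iff hF), prob_crossed hm]
    simp only [capacity_eq]
    exact ⟨g1, g2⟩

end Pool.Agent.Results.MP_b3e76a_pr.JointCrossing
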