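import Pool.Agent.Q216.CC.Defs
import Pool.Agent.Q216.CC.MultiTwo

/-!
# The interface touches several boundary sets: the joint law and products of capacities

The critical FK interface for `q = 1` (bond percolation with `p = 1 / 2`) in the rectangle
`[0, m] × [0, n]` of bounded aspect ratio, with the upper side wired and the other sides free.
For finitely many sets `S i` of points of the lower side, at macroscopic distance from the corners
and from each other, the probability that the interface touches the boundary at a point of every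
one of them is, up to constants, the product of the capacities of the `S i` for the kernel
`((m + 1) / (|x - y| + 1)) ^ (1/3)`, as for chordal SLE₆.
-/

set_option autoImplicit false

namespace Pool.Agent.Results.MP_b3e76a_pr.JointInterface

open Finset Pool.Agent.Q216.CC
open Pool.Agent.Results.MP_b3e76a_pr.BoundaryTouching

theorem bd_top {m n : ℕ} (hn : 1 ≤ n) {i : ℤ} (h1 : -((m : ℤ) + n) ≤ i)
    (h2 : i ≤ -(n : ℤ)) : bdry m n i = (-(n : ℤ) - i, (n : ℤ)) := by
  have h3 : i % (2 * ((m : ℤ) + n)) = i + 2 * ((m : ℤ) + n) := by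
    rw [Int.emod_eq_iff (by omega)]
    refine ⟨by omega, by omega, ?_⟩
    exact ⟨1, by ring⟩
  unfold bdry
  rw [h3]
  split_ifs with h4 h5 h6
  · omega
  · rw [Prod.mk.injEq]; omega
  · rw [Prod.mk.injEq]; omega
  · omega

theorem bd_bot {m n : ℕ} (hn : 1 ≤ n) {x : ℤ} (h1 : 0 ≤ x) (h2 : x ≤ m) :
    bdry m n x = (x, 0) := by
  have h3 : x % (2 * ((m : ℤ) + n)) = x := Int.emod_eq_of_lt h1 (by omega)
  unfold bdry
  rw [h3, if_pos h2]

theorem touch_iff {m n : ℕ} (hm : 1 ≤ m) (hn : 1 ≤ n) {S : Finset ℤ}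
    (hS : ∀ x ∈ S, 0 ≤ x ∧ x ≤ m) {F : Finset Edge} (hF : F ⊆ H974.RE 0 m 0 n) :
    TouchSet m n S F ↔ Pool.Agent.TH966.CC.Hit m n S F := by
  constructor
  · rintro ⟨x, hx, ht⟩
    have h0 := hS x hx
    rw [touchFree_iff hm hn (by omega) (by omega) hF] at ht
    obtain ⟨i, j, hi, hj, h1⟩ := ht
    have hjx : j = x := by omega
    subst hjx
    have e1 : H731A.bd m n i = (-(n : ℤ) - i, (n : ℤ)) := bd_top hn hi.1 hi.2
    have e2 : H731A.bd m n j = (j, 0) := bd_bot hn h0.1 h0.2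
    rw [e1, e2] at h1
    exact ⟨j, hx, -(n : ℤ) - i, by omega, h1.symm⟩
  · rintro ⟨x, hx, t, ht, h1⟩
    have h0 := hS x hx
    refine ⟨x, hx, ?_⟩
    rw [touchFree_iff hm hn (by omega) (by omega) hF]
    refine ⟨-(n : ℤ) - t, x, by omega, by omega, ?_⟩
    have e1 : H731A.bd m n (-(n : ℤ) - t) = (t, (n : ℤ)) := by
      have := bd_top (m := m) hn (i := -(n : ℤ) - t) (by omega) (by omega)
      rw [show H731A.bd m n (-(n : ℤ) - t) = bdry m n (-(n : ℤ) - t) from rfl, this]
      rw [Prod.mk.injEq]; omega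
    have e2 : H731A.bd m n x = (x, 0) := bd_bot hn h0.1 h0.2
    rw [e1, e2]
    exact h1.symm

/-- **The joint law of the touching of separated boundary sets.** -/
theorem result (K k : ℕ) : ∃ c₁ c₂ : ℝ, 0 < c₁ ∧ 0 < c₂ ∧ ∀ m n : ℕ, 1 ≤ m → 1 ≤ n →
    m ≤ K * n → n ≤ K * m → ∀ S : Fin k → Finset ℤ,
    (∀ i, ∀ x ∈ S i, (m : ℤ) ≤ K * x ∧ (m : ℤ) ≤ K * (m - x)) →
    (∀ i j, i ≠ j → ∀ x ∈ S i, ∀ y ∈ S j, (m : ℤ) ≤ K * |x - y|) →
      c₁ * ∏ i, capacity m (S i) ≤ prob m n (fun F => ∀ i, TouchSet m n (S i) F) ∧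
        prob m n (fun F => ∀ i, TouchSet m n (S i) F) ≤ c₂ * ∏ i, capacity m (S i) := by
  rcases Nat.eq_zero_or_pos K with hK | hK
  · refine ⟨1, 1, one_pos, one_pos, fun m n hm hn h1 => ?_⟩
    rw [hK] at h1
    omega
  · have hK' : (1 : ℤ) ≤ K := by exact_mod_cast hK
    obtain ⟨c, hc, hlow⟩ := Pool.Agent.Q216.CC.Multi.multi_low (K : ℤ) hK' k
    obtain ⟨C, hC, hup⟩ := Pool.Agent.Q216.CC.Multi.multi_up K hK k
    refine ⟨c, C, hc, hC, fun m n hm hn h1 h2 S hS hsep => ?_⟩
    have g1 := hlow m n (by exact_mod_cast hm) (by exact_mod_cast h1) (by exact_mod_cast h2) S hS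
    have g2 := hup m n (by exact_mod_cast hm) (by exact_mod_cast h1) (by exact_mod_cast h2) S hS
      hsep
    have hS' : ∀ i, ∀ x ∈ S i, 0 ≤ x ∧ x ≤ m := fun i x hx =>
      Pool.Agent.TH966.CC.Mid.pos hK' (by positivity) (hS i x hx)
    rw [prob_eq' m n (fun F => ∀ i, TouchSet m n (S i) F)
      (fun F => ∀ i, Pool.Agent.TH966.CC.Hit m n (S i) F)
      (fun F hF => forall_congr' (fun i => touch_iff hm hn (hS' i) hF))]
    simp only [capacity_eq]
    exact ⟨g1, g2⟩

end Pool.Agent.Results.MP_b3e76a_pr.JointInterface
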